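import Mathlib

/-!
# Random orders: the set of the predecessors of a vertex
-/

set_option autoImplicit false
set_option linter.unusedSectionVars false

namespace Pool.Agent.Q231.VT

open Finset

variable {V : Type} [Fintype V] [DecidableEq V] {n : ℕ}

/-- the elements of `X` before `v` -/
def pre (X : Finset V) (v : V) (σ : V ≃ Fin n) : Finset V := X.filter fun x => σ x < σ v

theorem exists_perm {X A A' : Finset V} {v : V} (hv : v ∉ X) (hA : A ⊆ X) (hA' : A' ⊆ X)
    (h : A.card = A'.card) : ∃ π : Equiv.Perm V, π v = v ∧ (∀ x, π x ∈ X ↔ x ∈ X) ∧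
      ∀ x, π x ∈ A' ↔ x ∈ A := by
  have hc : ∀ B : Finset V, B ⊆ X → Fintype.card {x : X // (x : V) ∈ B} = B.card := by
    intro B hB
    rw [← Fintype.card_coe B]
    refine Fintype.card_congr ⟨fun x => ⟨x.1, x.2⟩, fun x => ⟨⟨x.1, hB x.2⟩, x.2⟩, ?_, ?_⟩
    · intro x; rfl
    · intro x; rfl
  have e : {x : X // (x : V) ∈ A} ≃ {x : X // (x : V) ∈ A'} :=
    Fintype.equivOfCardEq (by rw [hc A hA, hc A' hA', h])
  set τ : Equiv.Perm X := e.extendSubtype with hτ
  have hτA : ∀ x : X, ((τ x : X) : V) ∈ A' ↔ (x : V) ∈ A := by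
    intro x
    constructor
    · intro hx
      by_contra hxA
      exact e.extendSubtype_not_mem x hxA hx
    · intro hx
      exact e.extendSubtype_mem x hx
  refine ⟨Equiv.Perm.ofSubtype τ, Equiv.Perm.ofSubtype_apply_of_not_mem τ hv, ?_, ?_⟩
  · intro x
    by_cases hx : x ∈ X
    · rw [Equiv.Perm.ofSubtype_apply_of_mem τ hx]
      exact ⟨fun _ => hx, fun _ => (τ ⟨x, hx⟩).2⟩
    · rw [Equiv.Perm.ofSubtype_apply_of_not_mem τ hx]
  · intro x
    by_cases hx : x ∈ X
    · rw [Equiv.Perm.ofSubtype_apply_of_mem τ hx]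
      exact hτA ⟨x, hx⟩
    · rw [Equiv.Perm.ofSubtype_apply_of_not_mem τ hx]
      exact ⟨fun h' => absurd (hA' h') hx, fun h' => absurd (hA h') hx⟩

/-- the number of orders with `A` as the set of predecessors -/
def cnt (n : ℕ) (X : Finset V) (v : V) (A : Finset V) : ℕ :=
  (univ.filter fun σ : V ≃ Fin n => pre X v σ = A).card

theorem cnt_eq {X A A' : Finset V} {v : V} (hv : v ∉ X) (hA : A ⊆ X) (hA' : A' ⊆ X)
    (h : A.card = A'.card) : cnt n X v A = cnt n X v A' := by
  obtain ⟨π, hπv, hπX, hπA⟩ := exists_perm hv hA hA' h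
  unfold cnt
  refine card_bij' (fun σ _ => π.symm.trans σ) (fun σ _ => π.trans σ) ?_ ?_ ?_ ?_
  · intro σ hσ
    rw [mem_filter] at hσ ⊢
    refine ⟨mem_univ _, ?_⟩
    ext x
    have h1 : x = π (π.symm x) := (π.apply_symm_apply x).symm
    have hv' : π.symm v = v := by rw [Equiv.symm_apply_eq]; exact hπv.symm
    unfold pre
    rw [mem_filter, Equiv.trans_apply, Equiv.trans_apply, hv']
    rw [h1, hπX, hπA, π.symm_apply_apply, ← hσ.2]
    unfold pre
    rw [mem_filter]
  · intro σ hσ
    rw [mem_filter] at hσ ⊢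
    refine ⟨mem_univ _, ?_⟩
    ext x
    unfold pre
    rw [mem_filter, Equiv.trans_apply, Equiv.trans_apply, hπv, ← hπA, ← hσ.2, ← hπX x]
    unfold pre
    rw [mem_filter]
  · intro σ _
    ext x
    simp
  · intro σ _
    ext x
    simp

/-! ### Ranks -/

/-- the rank of `y` in `Y` -/
def rk (Y : Finset V) (σ : V ≃ Fin n) (y : V) : ℕ := (Y.filter fun x => σ x < σ y).card

theorem rk_lt {Y : Finset V} (σ : V ≃ Fin n) {y : V} (hy : y ∈ Y) : rk Y σ y < Y.card :=
  card_lt_card ⟨filter_subset _ _, fun h => by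
    have := h hy
    simp at this⟩

theorem rk_inj {Y : Finset V} (σ : V ≃ Fin n) {y y' : V} (hy : y ∈ Y) (hy' : y' ∈ Y)
    (h : rk Y σ y = rk Y σ y') : y = y' := by
  have key : ∀ a ∈ Y, ∀ b, σ a < σ b → rk Y σ a < rk Y σ b := by
    intro a ha b hab
    refine card_lt_card ⟨?_, ?_⟩
    · intro x hx
      rw [mem_filter] at hx ⊢
      exact ⟨hx.1, hx.2.trans hab⟩
    · intro h'
      have := h' (mem_filter.2 ⟨ha, hab⟩)
      simp at this
  rcases lt_trichotomy (σ y) (σ y') with h1 | h1 | h1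
  · exact absurd h (key y hy y' h1).ne
  · exact σ.injective h1
  · exact absurd h (key y' hy' y h1).ne'

theorem card_rk {Y : Finset V} (σ : V ≃ Fin n) {b : ℕ} (hb : b < Y.card) :
    (Y.filter fun y => rk Y σ y = b).card = 1 := by
  have h1 : Y.image (rk Y σ) = range Y.card := by
    apply eq_of_subset_of_card_le
    · intro x hx
      obtain ⟨y, hy, rfl⟩ := mem_image.1 hx
      exact mem_range.2 (rk_lt σ hy)
    · rw [card_image_of_injOn (fun y hy y' hy' h => rk_inj σ hy hy' h), card_range]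
  obtain ⟨y, hy, hyb⟩ := mem_image.1 (h1 ▸ mem_range.2 hb : b ∈ Y.image (rk Y σ))
  rw [card_eq_one]
  refine ⟨y, ?_⟩
  ext z
  rw [mem_filter, mem_singleton]
  constructor
  · rintro ⟨hz, hzb⟩
    exact rk_inj σ hz hy (hzb.trans hyb.symm)
  · rintro rfl
    exact ⟨hy, hyb⟩

theorem card_rk_eq {Y : Finset V} {y v : V} (hy : y ∈ Y) (hv : v ∈ Y) (b : ℕ) :
    (univ.filter fun σ : V ≃ Fin n => rk Y σ y = b).card =
      (univ.filter fun σ : V ≃ Fin n => rk Y σ v = b).card := by
  have hsw : ∀ x, Equiv.swap y v x ∈ Y ↔ x ∈ Y := by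
    intro x
    rcases eq_or_ne x y with rfl | hxy
    · rw [Equiv.swap_apply_left]
      exact ⟨fun _ => hy, fun _ => hv⟩
    · rcases eq_or_ne x v with rfl | hxv
      · rw [Equiv.swap_apply_right]
        exact ⟨fun _ => hv, fun _ => hy⟩
      · rw [Equiv.swap_apply_of_ne_of_ne hxy hxv]
  have key : ∀ (σ : V ≃ Fin n) (a : V), rk Y ((Equiv.swap y v).trans σ) a =
      rk Y σ (Equiv.swap y v a) := by
    intro σ a
    unfold rk
    refine card_bij' (fun x _ => Equiv.swap y v x) (fun x _ => Equiv.swap y v x) ?_ ?_ ?_ ?_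
    · intro x hx
      rw [mem_filter] at hx ⊢
      exact ⟨(hsw x).2 hx.1, hx.2⟩
    · intro x hx
      rw [mem_filter] at hx ⊢
      refine ⟨(hsw x).2 hx.1, ?_⟩
      rw [Equiv.trans_apply, Equiv.trans_apply, Equiv.swap_apply_self]
      exact hx.2
    · intro x _
      exact Equiv.swap_apply_self _ _ _
    · intro x _
      exact Equiv.swap_apply_self _ _ _
  refine card_bij' (fun σ _ => (Equiv.swap y v).trans σ) (fun σ _ => (Equiv.swap y v).trans σ)
    ?_ ?_ ?_ ?_
  · intro σ hσ
    rw [mem_filter] at hσ ⊢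
    refine ⟨mem_univ _, ?_⟩
    rw [key, Equiv.swap_apply_right]
    exact hσ.2
  · intro σ hσ
    rw [mem_filter] at hσ ⊢
    refine ⟨mem_univ _, ?_⟩
    rw [key, Equiv.swap_apply_left]
    exact hσ.2
  · intro σ _
    ext x
    simp
  · intro σ _
    ext x
    simp

theorem card_pre (hn : Fintype.card V = n) {X : Finset V} {v : V} (hv : v ∉ X) {b : ℕ}
    (hb : b ≤ X.card) :
    (X.card + 1) * (univ.filter fun σ : V ≃ Fin n => (pre X v σ).card = b).card =
      n.factorial := by
  have hY : (insert v X).card = X.card + 1 := card_insert_of_notMem hv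
  have h1 : ∑ y ∈ insert v X, (univ.filter fun σ : V ≃ Fin n => rk (insert v X) σ y = b).card =
      n.factorial := by
    simp only [card_filter]
    rw [sum_comm]
    have h2 : ∀ σ : V ≃ Fin n, ∑ y ∈ insert v X, (if rk (insert v X) σ y = b then 1 else 0) = 1 := by
      intro σ
      rw [← card_filter]
      exact card_rk σ (by omega)
    rw [sum_congr rfl fun σ _ => h2 σ, sum_const, card_univ, smul_eq_mul, mul_one,
      Fintype.card_equiv (Fintype.equivFinOfCardEq hn), hn]
  rw [sum_congr rfl fun y hy => card_rk_eq hy (mem_insert_self v X) b, sum_const, hY,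
    smul_eq_mul] at h1
  rw [← h1]
  congr 2
  ext σ
  rw [mem_filter, mem_filter]
  have : rk (insert v X) σ v = (pre X v σ).card := by
    unfold rk pre
    rw [filter_insert, if_neg (lt_irrefl _)]
  rw [this]

theorem cnt_formula (hn : Fintype.card V = n) {X A : Finset V} {v : V} (hv : v ∉ X)
    (hA : A ⊆ X) : (X.card + 1) * (X.card.choose A.card * cnt n X v A) = n.factorial := by
  rw [← card_pre hn hv (card_le_card hA)]
  congr 1
  have h1 : (univ.filter fun σ : V ≃ Fin n => (pre X v σ).card = A.card).card =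
      ∑ A' ∈ powersetCard A.card X, cnt n X v A' := by
    unfold cnt
    rw [← card_biUnion]
    · congr 1
      ext σ
      rw [mem_filter, mem_biUnion]
      constructor
      · rintro ⟨-, h⟩
        exact ⟨pre X v σ, mem_powersetCard.2 ⟨filter_subset _ _, h⟩,
          mem_filter.2 ⟨mem_univ _, rfl⟩⟩
      · rintro ⟨A', hA', hσ⟩
        rw [mem_filter] at hσ
        exact ⟨mem_univ _, by rw [hσ.2]; exact (mem_powersetCard.1 hA').2⟩
    · intro A' _ A'' _ hne
      rw [Function.onFun, disjoint_left]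
      intro σ h' h''
      rw [mem_filter] at h' h''
      exact hne (h'.2.symm.trans h''.2)
  rw [h1, sum_congr rfl fun A' hA' => cnt_eq (n := n) hv (mem_powersetCard.1 hA').1 hA
    (mem_powersetCard.1 hA').2, sum_const, card_powersetCard, smul_eq_mul]

/-- the sum of a function of the set of predecessors over all orders -/
theorem sum_pre (hn : Fintype.card V = n) {X : Finset V} {v : V} (hv : v ∉ X)
    (f : Finset V → ℝ) :
    ((X.card : ℝ) + 1) * ∑ σ : V ≃ Fin n, f (pre X v σ) =
      n.factorial * ∑ A ∈ X.powerset, f A / (X.card.choose A.card : ℝ) := by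
  have h1 : ∑ σ : V ≃ Fin n, f (pre X v σ) = ∑ A ∈ X.powerset, (cnt n X v A : ℝ) * f A := by
    rw [← sum_fiberwise_of_maps_to (s := univ) (t := X.powerset) (g := pre X v)
      (fun σ _ => mem_powerset.2 (filter_subset _ _))]
    refine sum_congr rfl fun A _ => ?_
    rw [sum_congr rfl (g := fun _ => f A) (fun σ hσ => by rw [(mem_filter.1 hσ).2]), sum_const,
      nsmul_eq_mul]
    rfl
  rw [h1, mul_sum, mul_sum]
  refine sum_congr rfl fun A hA => ?_
  have hA' := mem_powerset.1 hA
  have h2 := cnt_formula hn hv hA'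
  have h3 : (0 : ℝ) < (X.card.choose A.card : ℝ) := by
    exact_mod_cast Nat.choose_pos (card_le_card hA')
  have h4 : ((X.card : ℝ) + 1) * ((X.card.choose A.card : ℝ) * (cnt n X v A : ℝ)) =
      n.factorial := by exact_mod_cast h2
  rw [← h4]
  field_simp

end Pool.Agent.Q231.VT
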