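import Mathlib
import Pool.Agent.Q231.VT.Order
import Pool.Agent.Q231.CP.Growth

/-!
# Growth along a random order
-/

set_option autoImplicit false
set_option linter.unusedSectionVars false

namespace Pool.Agent.Q231.VT

open Matrix Finset Pool.Agent.H283R2.DR Pool.Agent.H789R5 Pool.Agent.Q231.CP

variable {V : Type} [Fintype V] {d : ℕ}

/-- two elements of `A` are not adjacent in `H` -/
def NC (H : SimpleGraph V) (A : Finset V) : Prop := ∃ x ∈ A, ∃ y ∈ A, x ≠ y ∧ ¬ H.Adj x y

open Classical in
/-- the number of constraints won by adding a vertex with earlier neighbours `A` -/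
noncomputable def gain (H : SimpleGraph V) (d : ℕ) (A : Finset V) : ℕ :=
  if A.card ≤ d then A.card else if NC H A then d + 1 else d

theorem order_bound {p : V → Fin d → ℝ} (hp : MG p) (G : SimpleGraph V) (ht : V → ℕ)
    (S : V → Finset V) (hlow : ∀ v, ∀ u ∈ S v, ht u < ht v)
    (hadj : ∀ v, ∀ u ∈ S v, (clo G p).Adj v u) :
    mo G p + ∑ v, gain (clo G p) d (S v) ≤ d * Fintype.card V := by
  classical
  have h : ∀ v, ∃ N ⊆ S v, N.card = gain (clo G p) d (S v) ∧ (N.card ≤ d ∨ N.card = d + 1 ∧
      ∃ x ∈ N, ∃ y ∈ N, x ≠ y ∧ ¬ (clo G p).Adj x y) := by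
    intro v
    unfold gain
    by_cases h1 : (S v).card ≤ d
    · rw [if_pos h1]
      exact ⟨S v, subset_rfl, rfl, Or.inl h1⟩
    · rw [if_neg h1]
      by_cases h2 : NC (clo G p) (S v)
      · rw [if_pos h2]
        obtain ⟨x, hx, y, hy, hxy, hn⟩ := h2
        have hd : 1 ≤ d ∨ d = 0 := by omega
        rcases hd with hd | rfl
        · have hsub : ({x, y} : Finset V) ⊆ S v := by
            intro z hz
            rw [mem_insert, mem_singleton] at hz
            rcases hz with rfl | rfl
            · exact hx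
            · exact hy
          obtain ⟨N, hN1, hN2, hN3⟩ := exists_subsuperset_card_eq hsub
            (show ({x, y} : Finset V).card ≤ d + 1 by rw [card_pair hxy]; omega)
            (show d + 1 ≤ (S v).card by omega)
          exact ⟨N, hN2, hN3, Or.inr ⟨hN3, x, hN1 (mem_insert_self _ _), y,
            hN1 (mem_insert_of_mem (mem_singleton_self _)), hxy, hn⟩⟩
        · exfalso
          apply hn
          refine ⟨hxy, fun q _ => ?_⟩
          simp [dotProduct]
      · rw [if_neg h2]
        obtain ⟨N, hN1, hN2⟩ := exists_subset_card_eq (show d ≤ (S v).card by omega)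
        exact ⟨N, hN1, hN2, Or.inl hN2.le⟩
  choose N hN1 hN2 hN3 using h
  have := growth hp G ht N (fun v u hu => hlow v u (hN1 v hu))
    (fun v u hu => hadj v u (hN1 v hu)) hN3
  rwa [sum_congr rfl fun v _ => hN2 v] at this

open Classical in
/-- the weight of a vertex with neighbours `X` -/
noncomputable def weight (H : SimpleGraph V) (d : ℕ) (X : Finset V) : ℝ :=
  ∑ A ∈ X.powerset, ((d : ℝ) - gain H d A) / (X.card.choose A.card : ℝ)

/-- **Averaging over all orders.** -/
theorem average {p : V → Fin d → ℝ} (hp : MG p) (G : SimpleGraph V) (X : V → Finset V)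
    (hadj : ∀ v, ∀ u ∈ X v, (clo G p).Adj v u)
    (hw : ∀ v, weight (clo G p) d (X v) ≤ 0) : mo G p = 0 := by
  classical
  set n := Fintype.card V with hn
  have hvX : ∀ v, v ∉ X v := fun v h => (hadj v v h).ne rfl
  have h1 : ∀ σ : V ≃ Fin n, (mo G p : ℝ) ≤
      ∑ v, ((d : ℝ) - gain (clo G p) d (pre (X v) v σ)) := by
    intro σ
    have h2 := order_bound hp G (fun v => (σ v : ℕ)) (fun v => pre (X v) v σ)
      (fun v u hu => (mem_filter.1 hu).2) (fun v u hu => hadj v u (mem_filter.1 hu).1)
    have h3 : (mo G p : ℝ) + ∑ v, (gain (clo G p) d (pre (X v) v σ) : ℝ) ≤ d * n := by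
      exact_mod_cast h2
    rw [sum_sub_distrib, sum_const, card_univ, nsmul_eq_mul]
    have h4 : ((Fintype.card V : ℕ) : ℝ) = n := by rw [hn]
    rw [h4]
    linarith
  have h2 : ((n.factorial : ℕ) : ℝ) * (mo G p : ℝ) ≤ 0 := by
    have h3 : ∑ σ : V ≃ Fin n, (mo G p : ℝ) ≤
        ∑ σ : V ≃ Fin n, ∑ v, ((d : ℝ) - gain (clo G p) d (pre (X v) v σ)) :=
      sum_le_sum fun σ _ => h1 σ
    rw [sum_const, card_univ, Fintype.card_equiv (Fintype.equivFinOfCardEq hn.symm), ← hn,
      nsmul_eq_mul, sum_comm] at h3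
    refine h3.trans (sum_nonpos fun v _ => ?_)
    have h4 := sum_pre hn.symm (hvX v) (fun A => (d : ℝ) - gain (clo G p) d A)
    have h5 : (((X v).card : ℝ) + 1) *
        ∑ σ : V ≃ Fin n, ((d : ℝ) - gain (clo G p) d (pre (X v) v σ)) ≤ 0 := by
      rw [h4]
      exact mul_nonpos_of_nonneg_of_nonpos (Nat.cast_nonneg _) (hw v)
    have h6 : (0 : ℝ) < ((X v).card : ℝ) + 1 := by positivity
    by_contra h7
    push Not at h7
    exact absurd (mul_pos h6 h7) (not_lt.2 h5)
  have h3 : (0 : ℝ) < ((n.factorial : ℕ) : ℝ) := by exact_mod_cast n.factorial_pos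
  have h4 : (mo G p : ℝ) ≤ 0 := by
    by_contra h5
    push Not at h5
    exact absurd (mul_pos h3 h5) (not_lt.2 h2)
  exact_mod_cast le_antisymm h4 (Nat.cast_nonneg _)

/-! ### The weight of a set which is not a clique -/

theorem weight_eq (H : SimpleGraph V) (d : ℕ) (X : Finset V) :
    weight H d X = ∑ b ∈ range (X.card + 1),
      (∑ A ∈ powersetCard b X, ((d : ℝ) - gain H d A)) / (X.card.choose b : ℝ) := by
  classical
  unfold weight
  rw [← sum_fiberwise_of_maps_to (s := X.powerset) (t := range (X.card + 1)) (g := card)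
    (fun A hA => mem_range.2 (Nat.lt_succ_of_le (card_le_card (mem_powerset.1 hA))))]
  refine sum_congr rfl fun b _ => ?_
  rw [sum_div]
  refine sum_congr ?_ fun A hA => ?_
  · ext A
    rw [mem_filter, mem_powerset, mem_powersetCard]
  · rw [(mem_powersetCard.1 hA).2]

theorem small_term (H : SimpleGraph V) {d b : ℕ} (hb : b ≤ d) {X : Finset V}
    (hbX : b ≤ X.card) :
    (∑ A ∈ powersetCard b X, ((d : ℝ) - gain H d A)) / (X.card.choose b : ℝ) = d - b := by
  have h : ∀ A ∈ powersetCard b X, (d : ℝ) - gain H d A = d - b := by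
    intro A hA
    unfold gain
    rw [if_pos (by rw [(mem_powersetCard.1 hA).2]; exact hb), (mem_powersetCard.1 hA).2]
  rw [sum_congr rfl h, sum_const, card_powersetCard, nsmul_eq_mul]
  have : (0 : ℝ) < (X.card.choose b : ℝ) := by exact_mod_cast Nat.choose_pos hbX
  field_simp

open Classical in
theorem large_term (H : SimpleGraph V) {d b : ℕ} (hb : d < b) {X : Finset V} :
    ∑ A ∈ powersetCard b X, ((d : ℝ) - gain H d A) =
      - (((powersetCard b X).filter fun A => NC H A).card : ℝ) := by
  have h : ∀ A ∈ powersetCard b X, (d : ℝ) - gain H d A = - if NC H A then (1 : ℝ) else 0 := by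
    intro A hA
    unfold gain
    rw [if_neg (by rw [(mem_powersetCard.1 hA).2]; omega)]
    split_ifs with h1
    · push_cast
      ring
    · ring
  rw [sum_congr rfl h, sum_neg_distrib, ← sum_filter, sum_const, nsmul_eq_mul, mul_one]

/-- exchanging `x` by a vertex `y` that is not adjacent to `x` turns cliques into non-cliques -/
theorem exchange {p : V → Fin d → ℝ} (hp : MG p) (G : SimpleGraph V) {v x y : V}
    [DecidableEq V] {A : Finset V} (hvA : ∀ u ∈ A, (clo G p).Adj v u) (hvy : (clo G p).Adj v y)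
    (hx : x ∈ A) (hy : y ∉ A) (hxy : ¬ (clo G p).Adj x y) (hA : ¬ NC (clo G p) A)
    (hc : d ≤ A.card) : NC (clo G p) (insert y (A.erase x)) := by
  by_contra hA'
  have hxy' : x ≠ y := fun h => hy (h ▸ hx)
  have hcl : ∀ a ∈ A, ∀ b ∈ A, a ≠ b → (clo G p).Adj a b := by
    intro a ha b hb hab
    by_contra h
    exact hA ⟨a, ha, b, hb, hab, h⟩
  have hcl' : ∀ a ∈ A.erase x, (clo G p).Adj y a := by
    intro a ha
    by_contra h
    exact hA' ⟨y, mem_insert_self _ _, a, mem_insert_of_mem ha, fun h' => hy (h' ▸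
      mem_of_mem_erase ha), h⟩
  rcases Nat.eq_zero_or_pos d with rfl | hd
  · apply hxy
    refine ⟨hxy', fun q _ => ?_⟩
    simp [dotProduct]
  obtain ⟨C, hC, hCc⟩ := exists_subset_card_eq (show d - 1 ≤ (A.erase x).card by
    rw [card_erase_of_mem hx]
    omega)
  have hxC : x ∉ C := fun h => (mem_erase.1 (hC h)).1 rfl
  have hyC : y ∉ C := fun h => hy (mem_of_mem_erase (hC h))
  have hCA : ∀ c ∈ C, c ∈ A := fun c hc => mem_of_mem_erase (hC hc)
  have hvC : v ∉ C := fun h => (hvA v (hCA v h)).ne rfl
  have hvx : v ≠ x := (hvA x hx).ne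
  have hvy' : v ≠ y := hvy.ne
  have h1 : v ∉ insert x (insert y C) := by
    rw [mem_insert, mem_insert]
    rintro (h | h | h)
    · exact hvx h
    · exact hvy' h
    · exact hvC h
  have h2 : x ∉ insert y C := by
    rw [mem_insert]
    rintro (h | h)
    · exact hxy' h
    · exact hxC h
  refine hxy (circuit_clo hp G (insert v (insert x (insert y C))) ?_
    (mem_insert_of_mem (mem_insert_self _ _))
    (mem_insert_of_mem (mem_insert_of_mem (mem_insert_self _ _))) hxy' ?_)
  · rw [card_insert_of_notMem h1, card_insert_of_notMem h2, card_insert_of_notMem hyC, hCc]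
    omega
  · intro a ha b hb hab hn1 hn2
    rw [mem_insert, mem_insert, mem_insert] at ha hb
    rcases ha with rfl | rfl | rfl | ha
    · rcases hb with rfl | rfl | rfl | hb
      · exact absurd rfl hab
      · exact hvA _ hx
      · exact hvy
      · exact hvA _ (hCA _ hb)
    · rcases hb with rfl | rfl | rfl | hb
      · exact (hvA _ hx).symm
      · exact absurd rfl hab
      · exact absurd ⟨rfl, rfl⟩ hn1
      · exact hcl _ hx _ (hCA _ hb) hab
    · rcases hb with rfl | rfl | rfl | hb
      · exact hvy.symm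
      · exact absurd ⟨rfl, rfl⟩ hn2
      · exact absurd rfl hab
      · exact hcl' _ (hC hb)
    · rcases hb with rfl | rfl | rfl | hb
      · exact (hvA _ (hCA _ ha)).symm
      · exact hcl _ (hCA _ ha) _ hx hab
      · exact (hcl' _ (hC ha)).symm
      · exact hcl _ (hCA _ ha) _ (hCA _ hb) hab

open Classical in
/-- the number of non-cliques -/
theorem many_nc {p : V → Fin d → ℝ} (hp : MG p) (G : SimpleGraph V) {v : V} {X : Finset V}
    (hX : ∀ u ∈ X, (clo G p).Adj v u) (hnc : NC (clo G p) X) {b : ℕ} (hb : d ≤ b)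
    (hb1 : 1 ≤ b) :
    (X.card - 1).choose (b - 1) ≤ ((powersetCard b X).filter fun A => NC (clo G p) A).card := by
  obtain ⟨x, hx, y, hy, hxy, hn⟩ := hnc
  have h1 : ((X.erase x).powersetCard (b - 1)).card = (X.card - 1).choose (b - 1) := by
    rw [card_powersetCard, card_erase_of_mem hx]
  rw [← h1]
  refine card_le_card_of_injOn (fun B => if NC (clo G p) (insert x B) then insert x B else
    insert y B) ?_ ?_
  · intro B hB
    have hB' := mem_powersetCard.1 hB
    have hxB : x ∉ B := fun h => (mem_erase.1 (hB'.1 h)).1 rfl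
    have hBX : B ⊆ X := fun a ha => mem_of_mem_erase (hB'.1 ha)
    have hcx : (insert x B).card = b := by
      rw [card_insert_of_notMem hxB, hB'.2]
      omega
    show (if NC (clo G p) (insert x B) then insert x B else insert y B) ∈
      (powersetCard b X).filter fun A => NC (clo G p) A
    split_ifs with h
    · rw [mem_filter, mem_powersetCard]
      exact ⟨⟨insert_subset hx hBX, hcx⟩, h⟩
    · have hyB : y ∉ B := by
        intro hyB
        exact h ⟨x, mem_insert_self _ _, y, mem_insert_of_mem hyB, hxy, hn⟩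
      have hyx : y ∉ insert x B := by
        rw [mem_insert]
        rintro (h' | h')
        · exact hxy h'.symm
        · exact hyB h'
      have := exchange hp G (v := v) (x := x) (y := y) (A := insert x B)
        (fun u hu => hX u ((insert_subset hx hBX) hu)) (hX y hy) (mem_insert_self _ _) hyx hn h
        (by rw [hcx]; exact hb)
      rw [erase_insert hxB] at this
      rw [mem_filter, mem_powersetCard]
      refine ⟨⟨insert_subset hy hBX, ?_⟩, this⟩
      rw [card_insert_of_notMem hyB, hB'.2]
      omega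
  · intro B hB B' hB' hBB
    have hB1 := mem_powersetCard.1 hB
    have hB2 := mem_powersetCard.1 hB'
    have hxB : x ∉ B := fun h => (mem_erase.1 (hB1.1 h)).1 rfl
    have hxB' : x ∉ B' := fun h => (mem_erase.1 (hB2.1 h)).1 rfl
    simp only at hBB
    split_ifs at hBB with h h' h'
    · rw [← erase_insert hxB, hBB, erase_insert hxB']
    · have : x ∈ insert y B' := hBB ▸ mem_insert_self x B
      rcases mem_insert.1 this with h1 | h1
      · exact absurd h1 hxy
      · exact absurd h1 hxB'
    · have : x ∈ insert y B := hBB.symm ▸ mem_insert_self x B'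
      rcases mem_insert.1 this with h1 | h1
      · exact absurd h1 hxy
      · exact absurd h1 hxB
    · have hyB : y ∉ B := fun hyB => h ⟨x, mem_insert_self _ _, y, mem_insert_of_mem hyB, hxy, hn⟩
      have hyB' : y ∉ B' := fun hyB => h' ⟨x, mem_insert_self _ _, y, mem_insert_of_mem hyB,
        hxy, hn⟩
      rw [← erase_insert hyB, hBB, erase_insert hyB']

/-- a vertex with at least `d (d + 1)` neighbours in the closure which are not all adjacent -/
theorem weight_nonpos {p : V → Fin d → ℝ} (hp : MG p) (G : SimpleGraph V) {v : V}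
    {X : Finset V} (hX : ∀ u ∈ X, (clo G p).Adj v u) (hnc : NC (clo G p) X)
    (hk : d * (d + 1) ≤ X.card) : weight (clo G p) d X ≤ 0 := by
  classical
  have hk2 : 2 ≤ X.card := by
    obtain ⟨x, hx, y, hy, hxy, -⟩ := hnc
    exact one_lt_card.2 ⟨x, hx, y, hy, hxy⟩
  set k := X.card with hkdef
  have hdk : d ≤ k := by nlinarith
  rw [weight_eq, ← hkdef, ← sum_range_add_sum_Ico _ (show d + 1 ≤ k + 1 by omega)]
  have h1 : ∑ b ∈ range (d + 1),
      (∑ A ∈ powersetCard b X, ((d : ℝ) - gain (clo G p) d A)) / (k.choose b : ℝ) =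
      d * (d + 1) / 2 := by
    rw [sum_congr rfl fun b hb => small_term (clo G p) (Nat.lt_succ_iff.1 (mem_range.1 hb))
      (by have := mem_range.1 hb; omega)]
    have : ∀ m : ℕ, ∑ b ∈ range (m + 1), ((d : ℝ) - b) = d * (m + 1) - m * (m + 1) / 2 := by
      intro m
      induction m with
      | zero => simp
      | succ m ih =>
        rw [sum_range_succ, ih]
        push_cast
        ring
    rw [this]
    ring
  have h2 : ∑ b ∈ Ico (d + 1) (k + 1),
      (∑ A ∈ powersetCard b X, ((d : ℝ) - gain (clo G p) d A)) / (k.choose b : ℝ) ≤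
      ∑ b ∈ Ico (d + 1) (k + 1), -((b : ℝ) / k) := by
    refine sum_le_sum fun b hb => ?_
    rw [mem_Ico] at hb
    rw [large_term _ (by omega), neg_div, neg_le_neg_iff]
    have hch : (0 : ℝ) < (k.choose b : ℝ) := by
      exact_mod_cast Nat.choose_pos (by omega : b ≤ k)
    have hkpos : (0 : ℝ) < k := by
      have : 0 < k := by omega
      exact_mod_cast this
    rw [div_le_div_iff₀ hkpos hch]
    have h3 := many_nc hp G hX hnc (b := b) (by omega) (by omega)
    rw [← hkdef] at h3
    have h4 : b * k.choose b = k * (k - 1).choose (b - 1) := by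
      obtain ⟨k', hk'⟩ : ∃ k', k = k' + 1 := ⟨k - 1, by omega⟩
      obtain ⟨b', hb'⟩ : ∃ b', b = b' + 1 := ⟨b - 1, by omega⟩
      rw [hk', hb', Nat.add_sub_cancel, Nat.add_sub_cancel, mul_comm,
        Nat.add_one_mul_choose_eq]
    have h5 : (b : ℝ) * (k.choose b : ℝ) = k * ((k - 1).choose (b - 1) : ℕ) := by
      exact_mod_cast h4
    have h6 : (((k - 1).choose (b - 1) : ℕ) : ℝ) ≤
        (((powersetCard b X).filter fun A => NC (clo G p) A).card : ℝ) := by exact_mod_cast h3
    rw [h5, mul_comm]
    exact mul_le_mul_of_nonneg_right h6 hkpos.le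
  have h3 : ∀ m : ℕ, d ≤ m → ∑ b ∈ Ico (d + 1) (m + 1), (b : ℝ) =
      m * (m + 1) / 2 - d * (d + 1) / 2 := by
    intro m hm
    induction m, hm using Nat.le_induction with
    | base => simp
    | succ m hm ih =>
      rw [sum_Ico_succ_top (by omega), ih]
      push_cast
      ring
  have h4 : ∑ b ∈ Ico (d + 1) (k + 1), -((b : ℝ) / k) =
      -((k * (k + 1) / 2 - d * (d + 1) / 2) / k) := by
    rw [sum_neg_distrib, ← sum_div, h3 k hdk]
  have hkpos : (0 : ℝ) < k := by
    have : 0 < k := by omega
    exact_mod_cast this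
  have hk' : (d * (d + 1) : ℝ) ≤ k := by exact_mod_cast hk
  have h5 : (d * (d + 1) / 2 : ℝ) + -((k * (k + 1) / 2 - d * (d + 1) / 2) / k) ≤ 0 := by
    have e : (d * (d + 1) / 2 : ℝ) + -((k * (k + 1) / 2 - d * (d + 1) / 2) / k) =
        (k + 1) * (d * (d + 1) - k) / (2 * k) := by
      field_simp
      ring
    rw [e]
    apply div_nonpos_of_nonpos_of_nonneg
    · exact mul_nonpos_of_nonneg_of_nonpos (by positivity) (by linarith)
    · positivity
  rw [h1]
  linarith

end Pool.Agent.Q231.VT
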