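import Mathlib
import Pool.Agent.Q231.VT.Avg

/-!
# Vertex-transitive graphs
-/

set_option autoImplicit false
set_option linter.unusedSectionVars false

namespace Pool.Agent.Q231.VT

open Matrix Finset Pool.Agent.H283R2.DR Pool.Agent.H789R5 Pool.Agent.Q231.CP

variable {V : Type} [Fintype V] {d : ℕ}

/-- every vertex can be mapped to every vertex by an automorphism -/
def VertexTransitive (G : SimpleGraph V) : Prop := ∀ u v : V, ∃ φ : G ≃g G, φ u = v

/-- every arc can be mapped to every arc by an automorphism -/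
def ArcTransitive (G : SimpleGraph V) : Prop :=
  ∀ u v u' v' : V, G.Adj u v → G.Adj u' v' → ∃ φ : G ≃g G, φ u = u' ∧ φ v = v'

/-- the neighbours in the closure -/
noncomputable def cn (G : SimpleGraph V) (p : V → Fin d → ℝ) (v : V) : Finset V :=
  (Set.toFinite {u | (clo G p).Adj v u}).toFinset

theorem mem_cn (G : SimpleGraph V) (p : V → Fin d → ℝ) (v u : V) :
    u ∈ cn G p v ↔ (clo G p).Adj v u := by
  unfold cn
  rw [Set.Finite.mem_toFinset]
  rfl

theorem clo_iso {p : V → Fin d → ℝ} (hp : MG p) {G : SimpleGraph V} (φ : G ≃g G) (x y : V) :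
    (clo G p).Adj (φ x) (φ y) ↔ (clo G p).Adj x y :=
  clo_aut hp G φ.toEquiv (fun _ _ => φ.map_adj_iff) x y

theorem nc_iso {p : V → Fin d → ℝ} (hp : MG p) {G : SimpleGraph V} (φ : G ≃g G) {v : V}
    (h : NC (clo G p) (cn G p v)) : NC (clo G p) (cn G p (φ v)) := by
  obtain ⟨x, hx, y, hy, hxy, hn⟩ := h
  rw [mem_cn] at hx hy
  refine ⟨φ x, ?_, φ y, ?_, fun h => hxy (φ.injective h), ?_⟩
  · rw [mem_cn, clo_iso hp]
    exact hx
  · rw [mem_cn, clo_iso hp]
    exact hy
  · rw [clo_iso hp]
    exact hn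

/-- if no vertex has non-adjacent neighbours in the closure then the closure is complete -/
theorem complete_of_simplicial {G : SimpleGraph V} {p : V → Fin d → ℝ} (hG : G.Connected)
    (h : ∀ v, ¬ NC (clo G p) (cn G p v)) : ∀ x y, x ≠ y → (clo G p).Adj x y := by
  have key : ∀ x y : V, G.Walk x y → x = y ∨ (clo G p).Adj x y := by
    intro x y w
    induction w with
    | nil => exact Or.inl rfl
    | cons hadj w ih =>
      rename_i a b c
      have h1 : (clo G p).Adj b a := (le_clo G p hadj).symm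
      rcases ih with rfl | h2
      · exact Or.inr h1.symm
      · by_contra h3
        push Not at h3
        exact h b ⟨a, (mem_cn _ _ _ _).2 h1, c, (mem_cn _ _ _ _).2 h2, h3.1, h3.2⟩
  intro x y hxy
  obtain ⟨w⟩ := hG.preconnected x y
  exact (key x y w).resolve_left hxy

theorem all_nc {G : SimpleGraph V} {p : V → Fin d → ℝ} (hp : MG p) (hG : G.Connected)
    (ht : VertexTransitive G) (hnr : ¬ GenRigid d G) (v : V) :
    NC (clo G p) (cn G p v) := by
  by_contra h
  apply hnr
  refine rigid_of_all hp G (complete_of_simplicial hG fun u hu => h ?_)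
  obtain ⟨φ, hφ⟩ := ht u v
  rw [← hφ]
  exact nc_iso hp φ hu

theorem rigid_of_mo_zero {G : SimpleGraph V} {p : V → Fin d → ℝ} (hp : MG p)
    (hV : d ≤ Fintype.card V) (h : mo G p = 0) : GenRigid d G := by
  rw [genRigid_iff hp hV, h]
  exact Nat.zero_le _

theorem degree_le_cn (G : SimpleGraph V) [DecidableRel G.Adj] (p : V → Fin d → ℝ) (v : V) :
    G.degree v ≤ (cn G p v).card := by
  rw [← SimpleGraph.card_neighborFinset_eq_degree]
  refine card_le_card fun u hu => ?_
  rw [SimpleGraph.mem_neighborFinset] at hu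
  rw [mem_cn]
  exact le_clo G p hu

/-- **Vertex-transitive graphs.** -/
theorem vt_rigid (G : SimpleGraph V) [DecidableRel G.Adj] (hG : G.Connected)
    (ht : VertexTransitive G) (hd : ∀ v, d * (d + 1) ≤ G.degree v) : GenRigid d G := by
  obtain ⟨p, hp⟩ := exists_mg V d
  by_contra hnr
  have hnc := all_nc hp hG ht hnr
  obtain ⟨v⟩ := hG.nonempty
  have hV : d ≤ Fintype.card V := by
    have h1 := G.degree_lt_card_verts v
    have h2 := hd v
    nlinarith
  refine hnr (rigid_of_mo_zero hp hV (average hp G (fun v => cn G p v)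
    (fun v u hu => (mem_cn _ _ _ _).1 hu) fun v => ?_))
  exact weight_nonpos hp G (fun u hu => (mem_cn _ _ _ _).1 hu) (hnc v)
    ((hd v).trans (degree_le_cn G p v))

end Pool.Agent.Q231.VT
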