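import Mathlib
import Pool.Agent.Q231.VT.Trans

/-!
# Arc-transitive graphs
-/

set_option autoImplicit false
set_option linter.unusedSectionVars false

namespace Pool.Agent.Q231.VT

open Matrix Finset Pool.Agent.H283R2.DR Pool.Agent.H789R5 Pool.Agent.Q231.CP

variable {V : Type} [Fintype V] {d : ℕ}

theorem adj_of_not_nc {H : SimpleGraph V} {A : Finset V} (hA : ¬ NC H A) {x y : V} (hx : x ∈ A)
    (hy : y ∈ A) (hxy : x ≠ y) : H.Adj x y := by
  by_contra h
  exact hA ⟨x, hx, y, hy, hxy, h⟩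

/-- two cliques of neighbours of `v` with `d - 1` common points -/
theorem join [DecidableEq V] {p : V → Fin d → ℝ} (hp : MG p) (G : SimpleGraph V) (hd : 1 ≤ d)
    {v : V} {A B : Finset V} (hvA : ∀ u ∈ A, (clo G p).Adj v u)
    (hvB : ∀ u ∈ B, (clo G p).Adj v u) (hA : ¬ NC (clo G p) A) (hB : ¬ NC (clo G p) B)
    (hc : d ≤ (A ∩ B).card + 1) {x y : V} (hx : x ∈ A) (hy : y ∈ B) (hxy : x ≠ y) :
    (clo G p).Adj x y := by
  by_cases hxB : x ∈ B
  · exact adj_of_not_nc hB hxB hy hxy
  by_cases hyA : y ∈ A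
  · exact adj_of_not_nc hA hx hyA hxy
  obtain ⟨C, hC, hCc⟩ := exists_subset_card_eq (show d - 1 ≤ (A ∩ B).card by omega)
  have hCA : ∀ c ∈ C, c ∈ A := fun c hc => (mem_inter.1 (hC hc)).1
  have hCB : ∀ c ∈ C, c ∈ B := fun c hc => (mem_inter.1 (hC hc)).2
  have hxC : x ∉ C := fun h => hxB (hCB x h)
  have hyC : y ∉ C := fun h => hyA (hCA y h)
  have hvC : v ∉ C := fun h => (hvA v (hCA v h)).ne rfl
  have hvx : v ≠ x := (hvA x hx).ne
  have hvy' : v ≠ y := (hvB y hy).ne
  have h1 : v ∉ insert x (insert y C) := by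
    rw [mem_insert, mem_insert]
    rintro (h | h | h)
    · exact hvx h
    · exact hvy' h
    · exact hvC h
  have h2 : x ∉ insert y C := by
    rw [mem_insert]
    rintro (h | h)
    · exact hxy h
    · exact hxC h
  refine circuit_clo hp G (insert v (insert x (insert y C))) ?_
    (mem_insert_of_mem (mem_insert_self _ _))
    (mem_insert_of_mem (mem_insert_of_mem (mem_insert_self _ _))) hxy ?_
  · rw [card_insert_of_notMem h1, card_insert_of_notMem h2, card_insert_of_notMem hyC, hCc]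
    omega
  · intro a ha b hb hab hn1 hn2
    rw [mem_insert, mem_insert, mem_insert] at ha hb
    rcases ha with rfl | rfl | rfl | ha
    · rcases hb with rfl | rfl | rfl | hb
      · exact absurd rfl hab
      · exact hvA _ hx
      · exact hvB _ hy
      · exact hvA _ (hCA _ hb)
    · rcases hb with rfl | rfl | rfl | hb
      · exact (hvA _ hx).symm
      · exact absurd rfl hab
      · exact absurd ⟨rfl, rfl⟩ hn1
      · exact adj_of_not_nc hA hx (hCA _ hb) hab
    · rcases hb with rfl | rfl | rfl | hb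
      · exact (hvB _ hy).symm
      · exact absurd ⟨rfl, rfl⟩ hn2
      · exact absurd rfl hab
      · exact adj_of_not_nc hB hy (hCB _ hb) hab
    · rcases hb with rfl | rfl | rfl | hb
      · exact (hvA _ (hCA _ ha)).symm
      · exact adj_of_not_nc hA (hCA _ ha) hx hab
      · exact adj_of_not_nc hB (hCB _ ha) hy hab
      · exact adj_of_not_nc hA (hCA _ ha) (hCA _ hb) hab

/-- the stabiliser of `v` is transitive on `X` -/
def LocTrans (G : SimpleGraph V) (v : V) (X : Finset V) : Prop :=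
  (∀ φ : G ≃g G, φ v = v → ∀ x ∈ X, φ x ∈ X) ∧
    ∀ x ∈ X, ∀ y ∈ X, ∃ φ : G ≃g G, φ v = v ∧ φ x = y

theorem nc_image [DecidableEq V] {p : V → Fin d → ℝ} (hp : MG p) {G : SimpleGraph V}
    (φ : G ≃g G) {A : Finset V} (hA : ¬ NC (clo G p) A) : ¬ NC (clo G p) (A.image φ) := by
  rintro ⟨x, hx, y, hy, hxy, hn⟩
  obtain ⟨a, ha, rfl⟩ := mem_image.1 hx
  obtain ⟨b, hb, rfl⟩ := mem_image.1 hy
  apply hn
  rw [clo_iso hp]
  exact adj_of_not_nc hA ha hb (fun h => hxy (by rw [h]))

/-- cliques in a non-complete transitive neighbourhood are small -/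
theorem clique_small [DecidableEq V] {p : V → Fin d → ℝ} (hp : MG p) {G : SimpleGraph V}
    (hd : 1 ≤ d) {v : V} {X : Finset V} (hX : ∀ u ∈ X, (clo G p).Adj v u)
    (hnc : NC (clo G p) X) (ht : LocTrans G v X) {A : Finset V} (hAX : A ⊆ X)
    (hA : ¬ NC (clo G p) A) : 2 * A.card + 2 ≤ X.card + d := by
  by_contra hcon
  obtain ⟨x, hx, y, hy, hxy, hn⟩ := hnc
  have hX2 : 2 ≤ X.card := one_lt_card.2 ⟨x, hx, y, hy, hxy⟩
  have hAne : A.Nonempty := by
    rw [nonempty_iff_ne_empty]
    rintro rfl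
    simp at hcon
    omega
  obtain ⟨a, ha⟩ := hAne
  obtain ⟨φ, hφv, hφ⟩ := ht.2 a (hAX ha) x hx
  obtain ⟨ψ, hψv, hψ⟩ := ht.2 a (hAX ha) y hy
  have h1 : A.image φ ⊆ X := by
    intro z hz
    obtain ⟨w, hw, rfl⟩ := mem_image.1 hz
    exact ht.1 φ hφv w (hAX hw)
  have h2 : A.image ψ ⊆ X := by
    intro z hz
    obtain ⟨w, hw, rfl⟩ := mem_image.1 hz
    exact ht.1 ψ hψv w (hAX hw)
  have h3 : (A.image φ).card = A.card := card_image_of_injective _ φ.injective
  have h4 : (A.image ψ).card = A.card := card_image_of_injective _ ψ.injective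
  have h5 := card_union_add_card_inter (A.image φ) (A.image ψ)
  have h6 : (A.image φ ∪ A.image ψ).card ≤ X.card := card_le_card (union_subset h1 h2)
  exact hn (join hp G hd (fun u hu => hX u (h1 hu)) (fun u hu => hX u (h2 hu))
    (nc_image hp φ hA) (nc_image hp ψ hA) (by omega)
    (mem_image.2 ⟨a, ha, hφ⟩) (mem_image.2 ⟨a, ha, hψ⟩) hxy)

/-- the cliques with `b` points in `X` -/
noncomputable def cl (H : SimpleGraph V) (X : Finset V) (b : ℕ) : Finset (Finset V) := by
  classical exact (powersetCard b X).filter fun A => ¬ NC H A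

theorem mem_cl {H : SimpleGraph V} {X : Finset V} {b : ℕ} {A : Finset V} :
    A ∈ cl H X b ↔ (A ⊆ X ∧ A.card = b) ∧ ¬ NC H A := by
  classical
  unfold cl
  rw [mem_filter, mem_powersetCard]

theorem ext_bound [DecidableEq V] {p : V → Fin d → ℝ} (hp : MG p) {G : SimpleGraph V}
    (hd : 1 ≤ d) {v : V} {X : Finset V} (hX : ∀ u ∈ X, (clo G p).Adj v u) {a : ℕ}
    (ha : ∀ A ⊆ X, ¬ NC (clo G p) A → A.card ≤ a) {b : ℕ} {D : Finset V}
    (hD : D.card = d - 1) :
    ((cl (clo G p) X b).filter fun B => D ⊆ B).card ≤ (a - (d - 1)).choose (b - (d - 1)) := by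
  set F := (cl (clo G p) X b).filter fun B => D ⊆ B with hF
  by_cases hFe : F = ∅
  · rw [hFe, card_empty]
    exact Nat.zero_le _
  obtain ⟨B0, hB0⟩ := nonempty_iff_ne_empty.2 hFe
  have hFm : ∀ B ∈ F, ((B ⊆ X ∧ B.card = b) ∧ ¬ NC (clo G p) B) ∧ D ⊆ B := by
    intro B hB
    rw [hF, mem_filter, mem_cl] at hB
    exact hB
  set U := F.biUnion id with hU
  have hUX : U ⊆ X := by
    intro x hx
    obtain ⟨B, hB, hxB⟩ := mem_biUnion.1 hx
    exact (hFm B hB).1.1.1 hxB
  have hUc : ¬ NC (clo G p) U := by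
    rintro ⟨x, hx, y, hy, hxy, hn⟩
    obtain ⟨B, hB, hxB⟩ := mem_biUnion.1 hx
    obtain ⟨B', hB', hyB⟩ := mem_biUnion.1 hy
    apply hn
    refine join hp G hd (fun u hu => hX u ((hFm B hB).1.1.1 hu))
      (fun u hu => hX u ((hFm B' hB').1.1.1 hu)) (hFm B hB).1.2 (hFm B' hB').1.2 ?_ hxB hyB hxy
    have : D ⊆ B ∩ B' := subset_inter (hFm B hB).2 (hFm B' hB').2
    have := card_le_card this
    omega
  have hUa := ha U hUX hUc
  have hDU : D ⊆ U := fun x hx => mem_biUnion.2 ⟨B0, hB0, (hFm B0 hB0).2 hx⟩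
  have h1 : F.card ≤ (powersetCard (b - (d - 1)) (U \ D)).card := by
    refine card_le_card_of_injOn (fun B => B \ D) ?_ ?_
    · intro B hB
      have hB' := hFm B hB
      show B \ D ∈ powersetCard (b - (d - 1)) (U \ D)
      rw [mem_powersetCard]
      refine ⟨sdiff_subset_sdiff (fun x hx => mem_biUnion.2 ⟨B, hB, hx⟩) subset_rfl, ?_⟩
      rw [card_sdiff_of_subset hB'.2, hB'.1.1.2, hD]
    · intro B hB B' hB' h
      have h1 := (hFm B hB).2
      have h2 := (hFm B' hB').2
      simp only at h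
      rw [← sdiff_union_of_subset h1, h, sdiff_union_of_subset h2]
  refine h1.trans ?_
  rw [card_powersetCard, card_sdiff_of_subset hDU, hD]
  exact Nat.choose_le_choose _ (by omega)

theorem double_count [DecidableEq V] {p : V → Fin d → ℝ} (hp : MG p) {G : SimpleGraph V}
    (hd : 1 ≤ d) {v : V} {X : Finset V} (hX : ∀ u ∈ X, (clo G p).Adj v u) {a : ℕ}
    (ha : ∀ A ⊆ X, ¬ NC (clo G p) A → A.card ≤ a) (b : ℕ) :
    (cl (clo G p) X b).card * b.choose (d - 1) ≤
      X.card.choose (d - 1) * (a - (d - 1)).choose (b - (d - 1)) := by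
  have h1 : ∑ B ∈ cl (clo G p) X b, ((powersetCard (d - 1) X).filter fun D => D ⊆ B).card =
      (cl (clo G p) X b).card * b.choose (d - 1) := by
    rw [sum_congr rfl (g := fun _ => b.choose (d - 1)), sum_const, smul_eq_mul]
    intro B hB
    rw [mem_cl] at hB
    rw [← hB.1.2, ← card_powersetCard]
    congr 1
    ext D
    rw [mem_filter, mem_powersetCard, mem_powersetCard]
    constructor
    · rintro ⟨⟨-, h1⟩, h2⟩
      exact ⟨h2, h1⟩
    · rintro ⟨h1, h2⟩
      exact ⟨⟨h1.trans hB.1.1, h2⟩, h1⟩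
  have h2 : ∑ D ∈ powersetCard (d - 1) X, ((cl (clo G p) X b).filter fun B => D ⊆ B).card ≤
      X.card.choose (d - 1) * (a - (d - 1)).choose (b - (d - 1)) := by
    rw [← card_powersetCard, ← smul_eq_mul]
    refine sum_le_card_nsmul _ _ _ fun D hD => ?_
    exact ext_bound hp hd hX ha (mem_powersetCard.1 hD).2
  rw [← h1]
  refine le_trans (le_of_eq ?_) h2
  simp only [card_filter]
  exact sum_comm

theorem choose_half {a k : ℕ} (h : 2 * a ≤ k) (j : ℕ) : 2 ^ j * a.choose j ≤ k.choose j := by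
  have h1 : ∀ j, 2 ^ j * a.descFactorial j ≤ k.descFactorial j := by
    intro j
    induction j with
    | zero => simp
    | succ j ih =>
      rw [Nat.descFactorial_succ, Nat.descFactorial_succ, pow_succ]
      have e : 2 ^ j * 2 * ((a - j) * a.descFactorial j) =
          (2 * (a - j)) * (2 ^ j * a.descFactorial j) := by ring
      rw [e]
      exact Nat.mul_le_mul (by omega) ih
  have h2 := h1 j
  rw [Nat.descFactorial_eq_factorial_mul_choose, Nat.descFactorial_eq_factorial_mul_choose] at h2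
  have h3 : j.factorial * (2 ^ j * a.choose j) ≤ j.factorial * k.choose j := by
    calc j.factorial * (2 ^ j * a.choose j) = 2 ^ j * (j.factorial * a.choose j) := by ring
      _ ≤ _ := h2
  exact Nat.le_of_mul_le_mul_left h3 j.factorial_pos

/-- the weight in terms of the numbers of cliques -/
theorem weight_le [DecidableEq V] (H : SimpleGraph V) {X : Finset V} (hdk : d ≤ X.card) :
    weight H d X = d * (d + 1) / 2 - (X.card - d) +
      ∑ b ∈ Ico (d + 1) (X.card + 1), ((cl H X b).card : ℝ) / (X.card.choose b : ℝ) := by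
  classical
  set k := X.card with hkdef
  rw [weight_eq, ← hkdef, ← sum_range_add_sum_Ico _ (show d + 1 ≤ k + 1 by omega)]
  have h1 : ∑ b ∈ range (d + 1),
      (∑ A ∈ powersetCard b X, ((d : ℝ) - gain H d A)) / (k.choose b : ℝ) =
      d * (d + 1) / 2 := by
    rw [sum_congr rfl fun b hb => small_term H (Nat.lt_succ_iff.1 (mem_range.1 hb))
      (by have := mem_range.1 hb; omega)]
    have : ∀ m : ℕ, ∑ b ∈ range (m + 1), ((d : ℝ) - b) = d * (m + 1) - m * (m + 1) / 2 := by
      intro m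
      induction m with
      | zero => simp
      | succ m ih =>
        rw [sum_range_succ, ih]
        push_cast
        ring
    rw [this]
    ring
  have h2 : ∀ b ∈ Ico (d + 1) (k + 1),
      (∑ A ∈ powersetCard b X, ((d : ℝ) - gain H d A)) / (k.choose b : ℝ) =
      -1 + ((cl H X b).card : ℝ) / (k.choose b : ℝ) := by
    intro b hb
    rw [mem_Ico] at hb
    rw [large_term _ (by omega)]
    have hch : (0 : ℝ) < (k.choose b : ℝ) := by
      exact_mod_cast Nat.choose_pos (by omega : b ≤ k)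
    have h3 : ((powersetCard b X).filter fun A => NC H A).card + (cl H X b).card =
        k.choose b := by
      rw [hkdef, ← card_powersetCard]
      unfold cl
      exact card_filter_add_card_filter_not _
    have h4 : (((powersetCard b X).filter fun A => NC H A).card : ℝ) =
        (k.choose b : ℝ) - ((cl H X b).card : ℝ) := by
      rw [← h3]
      push_cast
      ring
    rw [h4]
    field_simp
    ring
  rw [h1, sum_congr rfl h2, sum_add_distrib, sum_const, Nat.card_Ico, nsmul_eq_mul]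
  have h5 : ((k + 1 - (d + 1) : ℕ) : ℝ) = (k : ℝ) - d := by
    rw [Nat.cast_sub (by omega)]
    push_cast
    ring
  rw [h5]
  ring

/-- transitive neighbourhoods with more than `d (d + 3) / 2` points -/
theorem weight_trans {p : V → Fin d → ℝ} (hp : MG p) {G : SimpleGraph V} (hd : 1 ≤ d)
    {v : V} {X : Finset V} (hX : ∀ u ∈ X, (clo G p).Adj v u) (hnc : NC (clo G p) X)
    (ht : LocTrans G v X) (hk : d * (d + 3) + 1 ≤ 2 * X.card) : weight (clo G p) d X ≤ 0 := by
  classical
  have hdk : d ≤ X.card := by nlinarith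
  rw [weight_le (d := d) _ hdk]
  set k := X.card with hkdef
  have ha : ∀ A ⊆ X, ¬ NC (clo G p) A → A.card ≤ (k + d - 2) / 2 := by
    intro A hA hAc
    have := clique_small hp hd hX hnc ht hA hAc
    omega
  have h1 : ∀ b ∈ Ico (d + 1) (k + 1), ((cl (clo G p) X b).card : ℝ) / (k.choose b : ℝ) ≤
      (1 / 2) ^ (b - (d - 1)) := by
    intro b hb
    rw [mem_Ico] at hb
    have hch : (0 : ℝ) < (k.choose b : ℝ) := by
      exact_mod_cast Nat.choose_pos (by omega : b ≤ k)
    have h2 := double_count hp hd hX ha b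
    have h3 := choose_half (a := (k + d - 2) / 2 - (d - 1)) (k := k - (d - 1)) (by omega)
      (b - (d - 1))
    have h4 := Nat.choose_mul (n := k) (k := b) (s := d - 1) (by omega)
    have h5 : (cl (clo G p) X b).card * 2 ^ (b - (d - 1)) * b.choose (d - 1) ≤
        k.choose b * b.choose (d - 1) := by
      calc (cl (clo G p) X b).card * 2 ^ (b - (d - 1)) * b.choose (d - 1)
          = 2 ^ (b - (d - 1)) * ((cl (clo G p) X b).card * b.choose (d - 1)) := by ring
        _ ≤ 2 ^ (b - (d - 1)) * (k.choose (d - 1) *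
            ((k + d - 2) / 2 - (d - 1)).choose (b - (d - 1))) := Nat.mul_le_mul_left _ h2
        _ = k.choose (d - 1) * (2 ^ (b - (d - 1)) *
            ((k + d - 2) / 2 - (d - 1)).choose (b - (d - 1))) := by ring
        _ ≤ k.choose (d - 1) * (k - (d - 1)).choose (b - (d - 1)) :=
          Nat.mul_le_mul_left _ h3
        _ = k.choose b * b.choose (d - 1) := h4.symm
    have h6 := Nat.le_of_mul_le_mul_right h5 (Nat.choose_pos (by omega))
    have h7 : ((cl (clo G p) X b).card : ℝ) * 2 ^ (b - (d - 1)) ≤ (k.choose b : ℝ) := by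
      exact_mod_cast h6
    rw [div_le_iff₀ hch, one_div, inv_pow, ← div_eq_inv_mul, le_div_iff₀ (by positivity)]
    exact h7
  have h2 : ∑ b ∈ Ico (d + 1) (k + 1), ((1 : ℝ) / 2) ^ (b - (d - 1)) ≤ 1 / 2 := by
    have h3 : ∀ m : ℕ, d ≤ m → ∑ b ∈ Ico (d + 1) (m + 1), ((1 : ℝ) / 2) ^ (b - (d - 1)) =
        1 / 2 - (1 / 2) ^ (m - (d - 1)) := by
      intro m hm
      induction m, hm using Nat.le_induction with
      | base =>
        rw [Ico_self, sum_empty, show d - (d - 1) = 1 by omega]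
        norm_num
      | succ m hm ih =>
        rw [sum_Ico_succ_top (by omega), ih, show m + 1 - (d - 1) = m - (d - 1) + 1 by omega,
          pow_succ]
        ring
    rw [h3 k hdk]
    have : (0 : ℝ) ≤ (1 / 2) ^ (k - (d - 1)) := by positivity
    linarith
  have h3 := (sum_le_sum h1).trans h2
  have h4 : (d * (d + 3) + 1 : ℝ) ≤ 2 * k := by exact_mod_cast hk
  linarith

end Pool.Agent.Q231.VT
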