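import Mathlib
import Pool.Agent.Q231.VT.Arc

/-!
# Arc-transitive graphs: conclusion
-/

set_option autoImplicit false
set_option linter.unusedSectionVars false

namespace Pool.Agent.Q231.VT

open Matrix Finset Pool.Agent.H283R2.DR Pool.Agent.H789R5 Pool.Agent.Q231.CP

variable {V : Type} [Fintype V] {d : ℕ}

/-- all points of `X` are in the same number of cliques -/
theorem card_dvd [DecidableEq V] {p : V → Fin d → ℝ} (hp : MG p) {G : SimpleGraph V}
    {v : V} {X : Finset V} (ht : LocTrans G v X) (b : ℕ) :
    X.card ∣ b * (cl (clo G p) X b).card := by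
  rcases X.eq_empty_or_nonempty with rfl | ⟨x0, hx0⟩
  · rcases Nat.eq_zero_or_pos b with rfl | hb
    · simp
    · have : cl (clo G p) ∅ b = ∅ := by
        rw [eq_empty_iff_forall_notMem]
        intro A hA
        rw [mem_cl, subset_empty] at hA
        have h1 := hA.1.2
        rw [hA.1.1, card_empty] at h1
        omega
      rw [this]
      simp
  have hle : ∀ x ∈ X, ∀ y ∈ X, ((cl (clo G p) X b).filter fun B => x ∈ B).card ≤
      ((cl (clo G p) X b).filter fun B => y ∈ B).card := by
    intro x hx y hy
    obtain ⟨φ, hφv, hφ⟩ := ht.2 x hx y hy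
    refine card_le_card_of_injOn (fun B => B.image φ) ?_ ?_
    · intro B hB
      have hB' := mem_filter.1 hB
      have hB2 := mem_cl.1 hB'.1
      show B.image φ ∈ (cl (clo G p) X b).filter fun B => y ∈ B
      rw [mem_filter, mem_cl]
      refine ⟨⟨⟨?_, ?_⟩, nc_image hp φ hB2.2⟩, mem_image.2 ⟨x, hB'.2, hφ⟩⟩
      · intro z hz
        obtain ⟨w, hw, rfl⟩ := mem_image.1 hz
        exact ht.1 φ hφv w (hB2.1.1 hw)
      · rw [card_image_of_injective _ φ.injective, hB2.1.2]
    · intro B _ B' _ h
      exact image_injective φ.injective h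
  have h1 : ∑ x ∈ X, ((cl (clo G p) X b).filter fun B => x ∈ B).card =
      b * (cl (clo G p) X b).card := by
    have h2 : ∑ B ∈ cl (clo G p) X b, (X.filter fun x => x ∈ B).card =
        b * (cl (clo G p) X b).card := by
      rw [sum_congr rfl (g := fun _ => b), sum_const, smul_eq_mul, mul_comm]
      intro B hB
      have hB2 := mem_cl.1 hB
      rw [← hB2.1.2]
      congr 1
      ext x
      rw [mem_filter]
      exact ⟨fun h => h.2, fun h => ⟨hB2.1.1 h, h⟩⟩
    rw [← h2]
    simp only [card_filter]
    exact sum_comm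
  rw [sum_congr rfl fun x hx => le_antisymm (hle x hx x0 hx0) (hle x0 hx0 x hx), sum_const,
    smul_eq_mul] at h1
  exact ⟨_, h1.symm⟩

/-- transitive neighbourhoods with nine points in three-space -/
theorem weight_nine {p : V → Fin 3 → ℝ} (hp : MG p) {G : SimpleGraph V}
    {v : V} {X : Finset V} (hX : ∀ u ∈ X, (clo G p).Adj v u) (hnc : NC (clo G p) X)
    (ht : LocTrans G v X) (hk : X.card = 9) : weight (clo G p) 3 X ≤ 0 := by
  classical
  rw [weight_le (d := 3) _ (by omega)]
  have ha : ∀ A ⊆ X, ¬ NC (clo G p) A → A.card ≤ 5 := by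
    intro A hA hAc
    have := clique_small hp (by norm_num) hX hnc ht hA hAc
    omega
  have hbig : ∀ b, 6 ≤ b → (cl (clo G p) X b).card = 0 := by
    intro b hb
    rw [card_eq_zero, eq_empty_iff_forall_notMem]
    intro A hA
    have hA' := mem_cl.1 hA
    have := ha A hA'.1.1 hA'.2
    omega
  have h5 : (cl (clo G p) X 5).card = 0 := by
    have h1 := double_count hp (by norm_num) hX ha 5
    have h2 := card_dvd hp ht 5
    rw [hk] at h1 h2
    have e1 : Nat.choose 5 (3 - 1) = 10 := by decide
    have e2 : Nat.choose 9 (3 - 1) = 36 := by decide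
    have e3 : Nat.choose (5 - (3 - 1)) (5 - (3 - 1)) = 1 := by decide
    rw [e1, e2, e3] at h1
    omega
  have ha4 : ∀ A ⊆ X, ¬ NC (clo G p) A → A.card ≤ 4 := by
    intro A hA hAc
    have h1 := ha A hA hAc
    by_contra h2
    have h3 : A ∈ cl (clo G p) X 5 := mem_cl.2 ⟨⟨hA, by omega⟩, hAc⟩
    rw [card_eq_zero] at h5
    rw [h5] at h3
    exact notMem_empty _ h3
  have h4 : (cl (clo G p) X 4).card = 0 := by
    have h1 := double_count hp (by norm_num) hX ha4 4
    have h2 := card_dvd hp ht 4
    rw [hk] at h1 h2
    have e1 : Nat.choose 4 (3 - 1) = 6 := by decide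
    have e2 : Nat.choose 9 (3 - 1) = 36 := by decide
    have e3 : Nat.choose (4 - (3 - 1)) (4 - (3 - 1)) = 1 := by decide
    rw [e1, e2, e3] at h1
    omega
  rw [hk]
  have hz : ∑ b ∈ Ico (3 + 1) (9 + 1), ((cl (clo G p) X b).card : ℝ) / (Nat.choose 9 b : ℝ) =
      0 := by
    refine sum_eq_zero fun b hb => ?_
    rw [mem_Ico] at hb
    have : (cl (clo G p) X b).card = 0 := by
      rcases Nat.lt_or_ge b 6 with h | h
      · have hb' : b = 4 ∨ b = 5 := by omega
        rcases hb' with rfl | rfl
        · exact h4
        · exact h5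
      · exact hbig b h
    rw [this]
    simp
  rw [hz]
  norm_num

section

variable {p : V → Fin d → ℝ} {G : SimpleGraph V} [DecidableRel G.Adj]

theorem nb_iso (φ : G ≃g G) (v u : V) : φ u ∈ G.neighborFinset (φ v) ↔ u ∈ G.neighborFinset v := by
  rw [SimpleGraph.mem_neighborFinset, SimpleGraph.mem_neighborFinset, φ.map_adj_iff]

theorem locTrans_of_arc (ha : ArcTransitive G) (v : V) : LocTrans G v (G.neighborFinset v) := by
  constructor
  · intro φ hφ x hx
    have := (nb_iso φ v x).2 hx
    rwa [hφ] at this
  · intro x hx y hy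
    rw [SimpleGraph.mem_neighborFinset] at hx hy
    exact ha v x v y hx hy

/-- if all closed neighbourhoods are cliques in the closure, and those of adjacent vertices have
`d` common points, then the closure is complete -/
theorem complete_of_common [DecidableEq V] (hp : MG p) (hG : G.Connected)
    (hcl : ∀ v, ¬ NC (clo G p) (G.neighborFinset v))
    (hcom : ∀ u v, G.Adj u v →
      d ≤ (insert u (G.neighborFinset u) ∩ insert v (G.neighborFinset v)).card) :
    ∀ x y, x ≠ y → (clo G p).Adj x y := by
  have hR0 : ∀ x, ∀ a ∈ insert x (G.neighborFinset x), ∀ b ∈ insert x (G.neighborFinset x),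
      a ≠ b → (clo G p).Adj a b := by
    intro x a ha b hb hab
    rcases mem_insert.1 ha with rfl | ha
    · rcases mem_insert.1 hb with rfl | hb
      · exact absurd rfl hab
      · exact le_clo G p ((SimpleGraph.mem_neighborFinset _ _ _).1 hb)
    · rcases mem_insert.1 hb with rfl | hb
      · exact (le_clo G p ((SimpleGraph.mem_neighborFinset _ _ _).1 ha)).symm
      · exact adj_of_not_nc (hcl x) ha hb hab
  have hR : ∀ x y : V, G.Walk x y → ∀ a ∈ insert x (G.neighborFinset x),
      ∀ b ∈ insert y (G.neighborFinset y), a ≠ b → (clo G p).Adj a b := by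
    intro x y w
    induction w with
    | nil => exact hR0 _
    | cons hadj w ih =>
      rename_i x z y
      intro a ha b hb hab
      by_cases haz : a ∈ insert z (G.neighborFinset z)
      · exact ih a haz b hb hab
      refine attach hp G (U := {u | u ∈ insert z (G.neighborFinset z) ∨
        u ∈ insert y (G.neighborFinset y)}) ?_ (Or.inr hb) hab (hcom x z hadj) ?_ ?_
      · rintro s (hs | hs) t (ht | ht) hst
        · exact hR0 z s hs t ht hst
        · exact ih s hs t ht hst
        · exact (ih t ht s hs hst.symm).symm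
        · exact hR0 y s hs t ht hst
      · intro t ht
        exact Or.inl (mem_inter.1 ht).2
      · intro t ht
        have ht' := mem_inter.1 ht
        exact hR0 x a ha t ht'.1 (fun h => haz (h ▸ ht'.2))
  intro x y hxy
  obtain ⟨w⟩ := hG.preconnected x y
  exact hR x y w x (mem_insert_self _ _) y (mem_insert_self _ _) hxy

/-- **Arc-transitive graphs.** -/
theorem arc_rigid (hG : G.Connected) (ha : ArcTransitive G)
    (hdeg : ∀ v, 1 ≤ G.degree v ∧ d ≤ G.degree v ∧ d * (d + 1) + d ≤ 2 * G.degree v + 2)
    (hw : ∀ (p : V → Fin d → ℝ), MG p → ∀ v, NC (clo G p) (G.neighborFinset v) →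
      weight (clo G p) d (G.neighborFinset v) ≤ 0) : GenRigid d G := by
  classical
  obtain ⟨p, hp⟩ := exists_mg V d
  by_contra hnr
  have hvt : VertexTransitive G := by
    intro u v
    have hu := (hdeg u).1
    have hv := (hdeg v).1
    rw [← SimpleGraph.card_neighborFinset_eq_degree] at hu hv
    obtain ⟨u', hu'⟩ := card_pos.1 hu
    obtain ⟨v', hv'⟩ := card_pos.1 hv
    rw [SimpleGraph.mem_neighborFinset] at hu' hv'
    obtain ⟨φ, hφ, -⟩ := ha u u' v v' hu' hv'
    exact ⟨φ, hφ⟩
  have hnc := all_nc hp hG hvt hnr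
  obtain ⟨v0⟩ := hG.nonempty
  have hV : d ≤ Fintype.card V := by
    have h1 := G.degree_lt_card_verts v0
    have h2 := (hdeg v0).2.1
    omega
  by_cases hB : ∃ v, ¬ NC (clo G p) (G.neighborFinset v)
  · obtain ⟨v1, hv1⟩ := hB
    have hcl : ∀ v, ¬ NC (clo G p) (G.neighborFinset v) := by
      intro v hv
      apply hv1
      obtain ⟨φ, hφ⟩ := hvt v v1
      obtain ⟨x, hx, y, hy, hxy, hn⟩ := hv
      refine ⟨φ x, ?_, φ y, ?_, fun h => hxy (φ.injective h), ?_⟩
      · rw [← hφ, nb_iso]
        exact hx
      · rw [← hφ, nb_iso]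
        exact hy
      · rw [clo_iso hp]
        exact hn
    by_cases hM : ∃ u v, G.Adj u v ∧
        d ≤ (insert u (G.neighborFinset u) ∩ insert v (G.neighborFinset v)).card
    · obtain ⟨u, v, huv, hc⟩ := hM
      apply hnr
      refine rigid_of_all hp G (complete_of_common hp hG hcl fun u' v' huv' => ?_)
      obtain ⟨φ, hφu, hφv⟩ := ha u v u' v' huv huv'
      refine hc.trans ?_
      rw [← card_image_of_injective _ φ.injective]
      refine card_le_card fun z hz => ?_
      obtain ⟨w, hw, rfl⟩ := mem_image.1 hz
      rw [mem_inter, mem_insert, mem_insert] at hw ⊢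
      rw [← hφu, ← hφv, nb_iso, nb_iso]
      exact ⟨hw.1.imp (fun h => by rw [h]) id, hw.2.imp (fun h => by rw [h]) id⟩
    · push Not at hM
      refine hnr (rigid_of_mo_zero hp hV (average hp G (fun v => cn G p v)
        (fun v u hu => (mem_cn _ _ _ _).1 hu) fun v => ?_))
      refine weight_nonpos hp G (fun u hu => (mem_cn _ _ _ _).1 hu) (hnc v) ?_
      have hv := (hdeg v).1
      rw [← SimpleGraph.card_neighborFinset_eq_degree] at hv
      obtain ⟨u, hu⟩ := card_pos.1 hv
      have hu' := (SimpleGraph.mem_neighborFinset _ _ _).1 hu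
      have hMu := hM v u hu'
      have hreg : G.degree u = G.degree v := by
        obtain ⟨φ, hφ⟩ := hvt v u
        rw [← hφ]
        exact SimpleGraph.Iso.degree_eq φ v
      have h1 : (insert u (G.neighborFinset u)).card = G.degree v + 1 := by
        rw [card_insert_of_notMem (by simp), SimpleGraph.card_neighborFinset_eq_degree, hreg]
      have h2 : (G.neighborFinset v ∪ (insert u (G.neighborFinset u) \
          insert v (G.neighborFinset v))) ⊆ cn G p v := by
        intro z hz
        rw [mem_cn]
        rcases mem_union.1 hz with hz | hz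
        · exact le_clo G p ((SimpleGraph.mem_neighborFinset _ _ _).1 hz)
        · rw [mem_sdiff] at hz
          have hzv : z ≠ v := fun h => hz.2 (by rw [h]; exact mem_insert_self _ _)
          rcases mem_insert.1 hz.1 with rfl | hzu
          · exact le_clo G p hu'
          · refine adj_of_not_nc (hcl u) ?_ hzu hzv.symm
            rw [SimpleGraph.mem_neighborFinset]
            exact hu'.symm
      have h3 := card_le_card h2
      rw [card_union_of_disjoint, SimpleGraph.card_neighborFinset_eq_degree] at h3
      · have h4 := card_sdiff_add_card_inter (insert u (G.neighborFinset u))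
          (insert v (G.neighborFinset v))
        rw [inter_comm] at hMu
        have h5 := (hdeg v).2.2
        omega
      · rw [disjoint_left]
        intro z hz hz'
        exact (mem_sdiff.1 hz').2 (mem_insert_of_mem hz)
  · push Not at hB
    exact hnr (rigid_of_mo_zero hp hV (average hp G (fun v => G.neighborFinset v)
      (fun v u hu => le_clo G p ((SimpleGraph.mem_neighborFinset _ _ _).1 hu))
      fun v => hw p hp v (hB v)))

/-- arc-transitive graphs of valency greater than `d (d + 3) / 2` -/
theorem arc_rigid_gen (hd : 1 ≤ d) (hG : G.Connected) (ha : ArcTransitive G)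
    (hdeg : ∀ v, d * (d + 3) + 1 ≤ 2 * G.degree v) : GenRigid d G := by
  refine arc_rigid hG ha (fun v => ?_) ?_
  · have h := hdeg v
    refine ⟨by nlinarith, by nlinarith, by nlinarith⟩
  · intro p hp v hnc
    refine weight_trans hp hd (fun u hu => ?_) hnc (locTrans_of_arc ha v) ?_
    · exact le_clo G p ((SimpleGraph.mem_neighborFinset _ _ _).1 hu)
    · rw [SimpleGraph.card_neighborFinset_eq_degree]
      exact hdeg v

end

/-- arc-transitive graphs of valency at least nine in three-space -/
theorem arc_rigid_three {G : SimpleGraph V} [DecidableRel G.Adj] (hG : G.Connected)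
    (ha : ArcTransitive G) (hdeg : ∀ v, 9 ≤ G.degree v) : GenRigid 3 G := by
  refine arc_rigid hG ha (fun v => ?_) ?_
  · have h := hdeg v
    refine ⟨by omega, by omega, by omega⟩
  · intro p hp v hnc
    have hX : ∀ u ∈ G.neighborFinset v, (clo G p).Adj v u := fun u hu =>
      le_clo G p ((SimpleGraph.mem_neighborFinset _ _ _).1 hu)
    have hc := SimpleGraph.card_neighborFinset_eq_degree G v
    rcases Nat.eq_or_lt_of_le (hdeg v) with h | h
    · exact weight_nine hp hX hnc (locTrans_of_arc ha v) (by rw [hc]; exact h.symm)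
    · refine weight_trans hp (by norm_num) hX hnc (locTrans_of_arc ha v) ?_
      rw [hc]
      omega

end Pool.Agent.Q231.VT
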