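import Mathlib
import Pool.Agent.Q231.VT.Trans

/-!
# A vertex-transitive graph of degree `d (d + 1) - 1` that is not rigid
-/

set_option autoImplicit false
set_option linter.unusedSectionVars false

namespace Pool.Agent.Q231.VT

open Matrix Finset Pool.Agent.H283R2.DR Pool.Agent.H789R5 Pool.Agent.Q231.CP

/-- the complete bipartite graph with every vertex replaced by a clique -/
def trunc (k : ℕ) : SimpleGraph (Bool × Fin k × Fin k) where
  Adj x y := (x.1 = y.1 ∧ x.2.1 = y.2.1 ∧ x.2.2 ≠ y.2.2) ∨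
    (x.1 ≠ y.1 ∧ x.2.1 = y.2.2 ∧ x.2.2 = y.2.1)
  symm := ⟨by
    rintro x y (⟨h1, h2, h3⟩ | ⟨h1, h2, h3⟩)
    · exact Or.inl ⟨h1.symm, h2.symm, h3.symm⟩
    · exact Or.inr ⟨h1.symm, h3.symm, h2.symm⟩⟩
  loopless := ⟨by
    rintro x (⟨-, -, h⟩ | ⟨h, -, -⟩)
    · exact h rfl
    · exact h rfl⟩

instance (k : ℕ) : DecidableRel (trunc k).Adj := fun x y => by
  unfold trunc
  infer_instance

theorem trunc_adj {k : ℕ} (x y : Bool × Fin k × Fin k) : (trunc k).Adj x y ↔
    (x.1 = y.1 ∧ x.2.1 = y.2.1 ∧ x.2.2 ≠ y.2.2) ∨ (x.1 ≠ y.1 ∧ x.2.1 = y.2.2 ∧ x.2.2 = y.2.1) :=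
  Iff.rfl

/-- the cliques alone -/
def cliques (k : ℕ) : SimpleGraph (Bool × Fin k × Fin k) where
  Adj x y := x.1 = y.1 ∧ x.2.1 = y.2.1 ∧ x.2.2 ≠ y.2.2
  symm := ⟨fun _ _ h => ⟨h.1.symm, h.2.1.symm, h.2.2.symm⟩⟩
  loopless := ⟨fun _ h => h.2.2 rfl⟩

theorem trunc_degree {k : ℕ} (hk : 1 ≤ k) (x : Bool × Fin k × Fin k) : (trunc k).degree x = k := by
  classical
  obtain ⟨s, i, j⟩ := x
  have h1 : (trunc k).neighborFinset (s, i, j) =
      insert ((!s), j, i) ((univ.erase j).image fun j' => (s, i, j')) := by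
    ext ⟨s', i', j'⟩
    rw [SimpleGraph.mem_neighborFinset, trunc_adj, mem_insert, mem_image]
    constructor
    · rintro (⟨h1, h2, h3⟩ | ⟨h1, h2, h3⟩)
      · refine Or.inr ⟨j', ?_, ?_⟩
        · simp only [mem_erase, mem_univ, and_true]
          exact fun h => h3 h.symm
        · simp only at h1 h2
          rw [h1, h2]
      · left
        simp only at h1 h2 h3
        rw [h2, h3]
        congr 1
        cases s <;> cases s' <;> simp_all
    · rintro (h | ⟨a, ha, h⟩)
      · rw [Prod.mk.injEq, Prod.mk.injEq] at h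
        obtain ⟨rfl, rfl, rfl⟩ := h
        right
        simp
      · rw [Prod.mk.injEq, Prod.mk.injEq] at h
        obtain ⟨rfl, rfl, rfl⟩ := h
        left
        refine ⟨rfl, rfl, fun h => ?_⟩
        exact (mem_erase.1 ha).1 h.symm
  rw [← SimpleGraph.card_neighborFinset_eq_degree, h1, card_insert_of_notMem, card_image_of_injective,
    card_erase_of_mem (mem_univ _), card_univ, Fintype.card_fin]
  · omega
  · intro a b h
    simp only [Prod.mk.injEq] at h
    exact h.2.2
  · intro h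
    rw [mem_image] at h
    obtain ⟨a, -, h⟩ := h
    rw [Prod.mk.injEq] at h
    revert h
    cases s <;> simp

theorem trunc_connected {k : ℕ} (hk : 1 ≤ k) : (trunc k).Connected := by
  have h1 : ∀ (s : Bool) (i j j' : Fin k), (trunc k).Reachable (s, i, j) (s, i, j') := by
    intro s i j j'
    by_cases h : j = j'
    · subst h
      exact SimpleGraph.Reachable.refl _
    · exact SimpleGraph.Adj.reachable (Or.inl ⟨rfl, rfl, h⟩)
  have h2 : ∀ (s : Bool) (i j : Fin k), (trunc k).Reachable (s, i, j) (!s, j, i) := by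
    intro s i j
    exact SimpleGraph.Adj.reachable (Or.inr ⟨by simp, rfl, rfl⟩)
  have h3 : ∀ (s : Bool) (i j i' j' : Fin k), (trunc k).Reachable (s, i, j) (s, i', j') := by
    intro s i j i' j'
    have h4 := h2 (!s) j' i'
    rw [Bool.not_not] at h4
    exact ((h1 s i j j').trans (h2 s i j')).trans ((h1 (!s) j' i i').trans h4)
  have : Nonempty (Bool × Fin k × Fin k) := ⟨(true, ⟨0, hk⟩, ⟨0, hk⟩)⟩
  refine ⟨?_⟩
  rintro ⟨s, i, j⟩ ⟨s', i', j'⟩
  by_cases h : s' = s
  · subst h
    exact h3 _ _ _ _ _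
  · have h' : s' = !s := by cases s <;> cases s' <;> simp_all
    subst h'
    exact (h2 s i j).trans (h3 _ _ _ _ _)

/-- the automorphisms used -/
def tmap {k : ℕ} (c : Bool) (e : Bool → Equiv.Perm (Fin k)) :
    Bool × Fin k × Fin k ≃ Bool × Fin k × Fin k where
  toFun x := (xor c x.1, e x.1 x.2.1, e (!x.1) x.2.2)
  invFun y := (xor c y.1, (e (xor c y.1)).symm y.2.1, (e (!(xor c y.1))).symm y.2.2)
  left_inv x := by
    obtain ⟨s, i, j⟩ := x
    simp
  right_inv x := by
    obtain ⟨s, i, j⟩ := x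
    simp

theorem trunc_transitive (k : ℕ) : VertexTransitive (trunc k) := by
  rintro ⟨s, i, j⟩ ⟨s', i', j'⟩
  refine ⟨⟨tmap (xor s s') (fun t => if t = s then Equiv.swap i i' else Equiv.swap j j'), ?_⟩, ?_⟩
  · rintro ⟨a, b, c⟩ ⟨a', b', c'⟩
    rw [trunc_adj, trunc_adj]
    simp only [tmap, Equiv.coe_fn_mk]
    by_cases ha : a = a'
    · subst ha
      simp
    · have ha' : a' = !a := by cases a <;> cases a' <;> simp_all
      subst ha'
      simp
  · change (tmap (xor s s') (fun t => if t = s then Equiv.swap i i' else Equiv.swap j j'))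
      (s, i, j) = (s', i', j')
    have h1 : (!s) ≠ s := by cases s <;> simp
    simp only [tmap, Equiv.coe_fn_mk]
    rw [if_pos trivial, if_neg h1, Equiv.swap_apply_left, Equiv.swap_apply_left]
    congr 1
    cases s <;> cases s' <;> rfl

/-- the motions of the separate cliques -/
noncomputable def bodies {k d : ℕ} (p : Bool × Fin k × Fin k → Fin d → ℝ) :
    (Bool × Fin k → TA.Sk d × (Fin d → ℝ)) →ₗ[ℝ] (Bool × Fin k × Fin k → Fin d → ℝ) where
  toFun x v := TA.triv p (x (v.1, v.2.1)) v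
  map_add' x y := by
    funext v
    rw [Pi.add_apply, map_add]
    rfl
  map_smul' c x := by
    funext v
    rw [Pi.smul_apply, map_smul]
    rfl

theorem bodies_mem {k d : ℕ} (p : Bool × Fin k × Fin k → Fin d → ℝ)
    (x : Bool × Fin k → TA.Sk d × (Fin d → ℝ)) : bodies p x ∈ Mot (cliques k) p := by
  rw [mem_mot]
  rintro ⟨s, i, j⟩ ⟨s', i', j'⟩ ⟨h1, h2, -⟩
  simp only at h1 h2
  subst h1
  subst h2
  show (p _ - p _) ⬝ᵥ (((x (s, i)).1 : Matrix (Fin d) (Fin d) ℝ) *ᵥ p _ + (x (s, i)).2 -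
    (((x (s, i)).1 : Matrix (Fin d) (Fin d) ℝ) *ᵥ p _ + (x (s, i)).2)) = 0
  rw [add_sub_add_right_eq_sub, ← mulVec_sub]
  exact TA.skew_dot (x (s, i)).1.2 _

theorem bodies_inj {k d : ℕ} {p : Bool × Fin k × Fin k → Fin d → ℝ} (hp : MG p) (hk : d ≤ k) :
    Function.Injective (bodies p) := by
  classical
  intro x y h
  funext ⟨s, i⟩
  obtain ⟨h1, h2⟩ := triv_unique hp.toGen (S := univ.image fun j : Fin k => (s, i, j)) (by
      rw [card_image_of_injective, card_univ, Fintype.card_fin]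
      · exact hk
      · intro a b hab
        simp only [Prod.mk.injEq] at hab
        exact hab.2.2) (x (s, i)).1.2 (y (s, i)).1.2 (b := (x (s, i)).2) (b' := (y (s, i)).2) (by
      intro v hv
      obtain ⟨j, -, rfl⟩ := mem_image.1 hv
      exact congrFun h (s, i, j))
  exact Prod.ext (Subtype.ext h1) h2

theorem mo_trunc {k d : ℕ} {p : Bool × Fin k × Fin k → Fin d → ℝ} (hp : MG p) (hk : d ≤ k) :
    2 * k * (d * (d + 1) / 2) ≤ mo (trunc k) p + k * k := by
  have h1 : 2 * k * (d * (d + 1) / 2) ≤ mo (cliques k) p := by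
    have h2 : Module.finrank ℝ (Bool × Fin k → TA.Sk d × (Fin d → ℝ)) =
        2 * k * (d * (d + 1) / 2) := by
      rw [Module.finrank_pi_fintype, sum_const, finrank_triv, card_univ, Fintype.card_prod,
        Fintype.card_bool, Fintype.card_fin, smul_eq_mul]
    rw [← h2, ← LinearMap.finrank_range_of_inj (bodies_inj hp hk)]
    refine Submodule.finrank_mono ?_
    rintro _ ⟨x, rfl⟩
    exact bodies_mem p x
  refine h1.trans ?_
  have h3 := dim_drop (T := Fin k × Fin k) (Mot (cliques k) p) (Mot (trunc k) p)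
    (fun t => ef p (true, t.1, t.2) (false, t.2, t.1)) (by
      intro q hq h
      rw [mem_mot] at *
      rintro ⟨s, i, j⟩ ⟨s', i', j'⟩ hadj
      rw [trunc_adj] at hadj
      rcases hadj with hadj | ⟨h1, h2, h3⟩
      · exact hq _ _ hadj
      · simp only at h1 h2 h3
        subst h2
        subst h3
        cases s
        · have hs' : s' = true := by cases s' <;> simp_all
          subst hs'
          have h4 := h (j, i)
          rw [ef_comm, ef_apply] at h4
          exact h4
        · have hs' : s' = false := by cases s' <;> simp_all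
          subst hs'
          exact h (i, j))
  rw [Fintype.card_prod, Fintype.card_fin] at h3
  exact h3

/-- **Sharpness.** -/
theorem trunc_not_rigid {d : ℕ} (hd : 2 ≤ d) : ¬ GenRigid d (trunc (d * (d + 1) - 1)) := by
  obtain ⟨p, hp⟩ := exists_mg (Bool × Fin (d * (d + 1) - 1) × Fin (d * (d + 1) - 1)) d
  obtain ⟨D, hD⟩ : ∃ D, d * (d + 1) = 2 * D := by
    obtain ⟨D, hD⟩ := Nat.even_mul_succ_self d
    exact ⟨D, by omega⟩
  have h6 : 6 ≤ d * (d + 1) := by nlinarith
  have hdk : d ≤ d * (d + 1) - 1 := by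
    have : d * 3 ≤ d * (d + 1) := Nat.mul_le_mul_left d (by omega)
    omega
  rw [genRigid_iff hp (by
    rw [Fintype.card_prod, Fintype.card_prod, Fintype.card_fin, Fintype.card_bool]
    nlinarith)]
  intro h
  have h1 := mo_trunc hp hdk
  have hD2 : d * (d + 1) / 2 = D := by
    rw [hD, Nat.mul_div_cancel_left _ (by norm_num : 0 < 2)]
  rw [hD2] at h h1
  have h2 : ∀ m : ℕ, 2 * D = m + 1 → 2 * m * D = m * m + m := by
    intro m h2
    calc 2 * m * D = m * (2 * D) := by ring
      _ = _ := by rw [h2]; ring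
  rw [h2 _ (by omega)] at h1
  omega

end Pool.Agent.Q231.VT
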